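import Pool.Agent.H248R3.Defs

/-!
# Hyperelliptic curves `y² = h(x)`

For a polynomial `h` in `k[x]`, `FF h` is the function field `k(x)[y] / (y² - h(x))` of the curve
`y² = h(x)`.  It is a field when `Y² - h` is irreducible over `k(x)`, and then it is the function
field of exactly one smooth projective connected curve over `k` (for `k` algebraically closed):
the smooth projective model of `y² = h(x)`.  Two such curves are isomorphic if and only if their
function fields are isomorphic as extensions of `k`.
-/

set_option autoImplicit false

open Polynomial

namespace H248

variable {k : Type*} [Field k]

/-- The polynomial `Y² - h` over `k(x)`, for `h` in `k[x]`. -/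
noncomputable def hypPoly (h : k[X]) : (RatFunc k)[X] :=
  X ^ 2 - C (algebraMap k[X] (RatFunc k) h)

/-- The function field `k(x)[y] / (y² - h(x))` of the curve `y² = h(x)`. -/
abbrev FF (h : k[X]) : Type _ := AdjoinRoot (hypPoly h)

/-- The genus of the curve `y² = h(x)`: the dimension of the space of regular differentials of the
smooth projective curve with function field `FF h`. -/
noncomputable def hypGenus (h : k[X]) (hirr : Irreducible (hypPoly h)) : ℕ :=
  haveI : Fact (Irreducible (hypPoly h)) := ⟨hirr⟩
  genus k (FF h)

end H248
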