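import Pool.Agent.H248R3.P7

/-!
Quadratic extensions `k(x)(y)`, `y² = h(x)`, of the rational function field.
-/

set_option autoImplicit false
set_option linter.unusedSectionVars false

open Polynomial WithZero Module
open scoped nonZeroDivisors

namespace H248

section base

variable {k : Type*} [Field k]

theorem isPoly_of_sq_mul {q : RatFunc k} {h : k[X]} (hh : Squarefree h)
    (hq : IsPoly (q ^ 2 * algebraMap k[X] (RatFunc k) h)) : IsPoly q := by
  obtain ⟨w, hw⟩ := hq
  have hd : algebraMap k[X] (RatFunc k) q.denom ≠ 0 := by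
    simpa using q.denom_ne_zero
  have h1 : algebraMap k[X] (RatFunc k) (w * q.denom ^ 2) =
      algebraMap k[X] (RatFunc k) (q.num ^ 2 * h) := by
    have hq' : q * algebraMap k[X] (RatFunc k) q.denom = algebraMap k[X] (RatFunc k) q.num := by
      have := q.num_div_denom
      rw [div_eq_iff hd] at this
      exact this.symm
    rw [map_mul, map_mul, map_pow, map_pow, hw, ← hq']
    ring
  have h2 := RatFunc.algebraMap_injective k h1
  have h3 : q.denom ^ 2 ∣ h := by
    have hc : IsCoprime (q.denom ^ 2) (q.num ^ 2) := (q.isCoprime_num_denom.symm).pow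
    exact hc.dvd_of_dvd_mul_left ⟨w, by rw [← h2]; ring⟩
  have h4 : IsUnit q.denom := hh _ (by rw [← sq]; exact h3)
  have h5 : q.denom = 1 := by
    obtain ⟨c, hc, hc'⟩ := Polynomial.isUnit_iff.1 h4
    have := q.monic_denom
    rw [← hc'] at this ⊢
    have h6 : c = 1 := by
      have h7 := this.leadingCoeff
      rwa [Polynomial.leadingCoeff_C] at h7
    rw [h6, map_one]
  refine ⟨q.num, ?_⟩
  conv_rhs => rw [← q.num_div_denom]
  rw [h5, map_one, div_one]

theorem not_sq {g : ℕ} {h : k[X]} (hd : h.natDegree = 2 * g + 1) (q : RatFunc k) :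
    q ^ 2 ≠ algebraMap k[X] (RatFunc k) h := by
  intro hq
  have hh : h ≠ 0 := by
    rintro rfl
    simp at hd
  have h1 := congrArg (vi k) hq
  rw [vi_poly hh, hd, map_pow] at h1
  by_cases hq0 : q = 0
  · rw [hq0, map_zero] at h1
    simp at h1
  · rw [vi_of_nonzero hq0, ← exp_nsmul, exp_inj] at h1
    simp only [nsmul_eq_mul, Nat.cast_ofNat] at h1
    push_cast at h1
    omega

end base

section quad

variable {k : Type*} [Field k] [IsAlgClosed k] [CharZero k] {K : Type*} [Field K]
  [Algebra (RatFunc k) K] [Algebra k[X] K] [Algebra k K] [IsScalarTower k[X] (RatFunc k) K]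
  [IsScalarTower k (RatFunc k) K]
  (b : Basis (Fin 2) (RatFunc k) K) (h : k[X]) (hb0 : b 0 = 1)
  (hb1 : b 1 ^ 2 = algebraMap (RatFunc k) K (algebraMap k[X] (RatFunc k) h))

include hb0 in
theorem quad_eq (z : K) : z = algebraMap (RatFunc k) K (b.repr z 0) +
    algebraMap (RatFunc k) K (b.repr z 1) * b 1 := by
  conv_lhs => rw [← b.sum_repr z]
  rw [Fin.sum_univ_two, hb0, Algebra.smul_def, Algebra.smul_def, mul_one]

include hb0 in
theorem quad_repr (p q : RatFunc k) :
    b.repr (algebraMap (RatFunc k) K p + algebraMap (RatFunc k) K q * b 1) 0 = p ∧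
    b.repr (algebraMap (RatFunc k) K p + algebraMap (RatFunc k) K q * b 1) 1 = q := by
  have h1 : algebraMap (RatFunc k) K p + algebraMap (RatFunc k) K q * b 1 =
      p • b 0 + q • b 1 := by
    rw [hb0, Algebra.smul_def, Algebra.smul_def, mul_one]
  rw [h1]
  constructor <;> simp

include hb0 hb1 in
theorem quad_trace (z : K) : Algebra.trace (RatFunc k) K z = 2 * b.repr z 0 := by
  rw [Algebra.trace_eq_matrix_trace b, Matrix.trace, Fin.sum_univ_two, Matrix.diag_apply,
    Matrix.diag_apply, Algebra.leftMulMatrix_eq_repr_mul, Algebra.leftMulMatrix_eq_repr_mul, hb0,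
    mul_one]
  have h1 : z * b 1 = algebraMap (RatFunc k) K (b.repr z 1 * algebraMap k[X] (RatFunc k) h) +
      algebraMap (RatFunc k) K (b.repr z 0) * b 1 := by
    conv_lhs => rw [quad_eq b hb0 z]
    rw [map_mul, ← hb1]
    ring
  rw [h1, (quad_repr b hb0 _ _).2]
  ring

include hb0 hb1 in
theorem quad_rel (z : K) : z ^ 2 - algebraMap (RatFunc k) K (2 * b.repr z 0) * z +
    algebraMap (RatFunc k) K (b.repr z 0 ^ 2 - b.repr z 1 ^ 2 * algebraMap k[X] (RatFunc k) h)
      = 0 := by
  have h1 := quad_eq b hb0 z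
  set p := b.repr z 0
  set q := b.repr z 1
  rw [h1]
  simp only [map_mul, map_sub, map_pow, map_ofNat]
  rw [← hb1]
  ring

include hb0 hb1 in
/-- integrality over an integrally closed subring of `k(x)` -/
theorem quad_integral (A : Type*) [CommRing A] [IsDomain A] [IsIntegrallyClosed A]
    [Algebra A (RatFunc k)] [IsFractionRing A (RatFunc k)] [Algebra A K]
    [IsScalarTower A (RatFunc k) K] [FiniteDimensional (RatFunc k) K] (z : K) :
    IsIntegral A z ↔ (∃ a : A, algebraMap A (RatFunc k) a = 2 * b.repr z 0) ∧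
      ∃ a : A, algebraMap A (RatFunc k) a = b.repr z 0 ^ 2 - b.repr z 1 ^ 2 *
        algebraMap k[X] (RatFunc k) h := by
  have hinj := (algebraMap (RatFunc k) K).injective
  constructor
  · intro hz
    have h1 := Algebra.isIntegral_trace (L := RatFunc k) hz
    rw [quad_trace b h hb0 hb1] at h1
    refine ⟨IsIntegrallyClosed.isIntegral_iff.1 h1, ?_⟩
    have h2 : IsIntegral A (algebraMap (RatFunc k) K (2 * b.repr z 0)) :=
      (isIntegral_algebraMap_iff hinj).2 h1
    have h3 : algebraMap (RatFunc k) K (b.repr z 0 ^ 2 - b.repr z 1 ^ 2 *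
        algebraMap k[X] (RatFunc k) h) = z * (algebraMap (RatFunc k) K (2 * b.repr z 0) - z) := by
      have := quad_rel b h hb0 hb1 z
      linear_combination this
    have h4 : IsIntegral A (algebraMap (RatFunc k) K (b.repr z 0 ^ 2 - b.repr z 1 ^ 2 *
        algebraMap k[X] (RatFunc k) h)) := by
      rw [h3]
      exact hz.mul (h2.sub hz)
    exact IsIntegrallyClosed.isIntegral_iff.1 ((isIntegral_algebraMap_iff hinj).1 h4)
  · rintro ⟨⟨s, hs⟩, ⟨n, hn⟩⟩
    refine ⟨X ^ 2 - C s * X + C n, ?_, ?_⟩
    · have : (X ^ 2 - C s * X + C n : A[X]) = X ^ 2 + (C (-s) * X + C n) := by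
        rw [map_neg]; ring
      rw [this]
      refine Polynomial.monic_X_pow_add ?_
      exact (Polynomial.degree_linear_le).trans_lt (by norm_num)
    · simp only [eval₂_add, eval₂_sub, eval₂_pow, eval₂_X, eval₂_mul, eval₂_C]
      rw [IsScalarTower.algebraMap_apply A (RatFunc k) K s,
        IsScalarTower.algebraMap_apply A (RatFunc k) K n, hs, hn]
      exact quad_rel b h hb0 hb1 z

theorem two_ne_zero' : (2 : RatFunc k) ≠ 0 := by
  have : CharZero (RatFunc k) :=
    charZero_of_injective_algebraMap (R := k) (algebraMap k (RatFunc k)).injective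
  exact two_ne_zero

theorem two_eq_C : (2 : RatFunc k) = RatFunc.C 2 := by
  rw [map_ofNat]

include hb0 hb1 in
theorem quad_adapted [FiniteDimensional (RatFunc k) K] {g : ℕ} (hd : h.natDegree = 2 * g + 1)
    (hsq : Squarefree h) : Adapted (Fin 2) b ![0, (g : ℤ) + 1] := by
  have h2k : (2 : k) ≠ 0 := two_ne_zero
  have hh : h ≠ 0 := by
    rintro rfl
    simp at hd
  constructor
  · intro z
    rw [quad_integral b h hb0 hb1, Fin.forall_fin_two]
    constructor
    · rintro ⟨hs, hn⟩
      have h1 : IsPoly (b.repr z 0) := by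
        have h3 : IsPoly (RatFunc.C (2⁻¹ : k) * (2 * b.repr z 0)) := (isPoly_C _).mul hs
        have h4 : RatFunc.C (2⁻¹ : k) * (2 * b.repr z 0) = b.repr z 0 := by
          rw [two_eq_C, ← mul_assoc, ← map_mul, inv_mul_cancel₀ h2k, map_one, one_mul]
        rwa [h4] at h3
      refine ⟨h1, isPoly_of_sq_mul hsq ?_⟩
      have h3 := (h1.mul h1).sub hn
      convert h3 using 1
      ring
    · rintro ⟨hp, hq⟩
      refine ⟨?_, ?_⟩
      · have : IsPoly (2 * b.repr z 0) := by
          rw [two_eq_C]
          exact (isPoly_C _).mul hp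
        exact this
      · have : IsPoly (b.repr z 0 ^ 2 - b.repr z 1 ^ 2 * algebraMap k[X] (RatFunc k) h) := by
          rw [sq, sq]
          exact (hp.mul hp).sub ((hq.mul hq).mul ⟨h, rfl⟩)
        exact this
  · intro z
    rw [quad_integral b h hb0 hb1, Fin.forall_fin_two]
    have hiff : ∀ f : RatFunc k, (∃ a : infRing k, algebraMap (infRing k) (RatFunc k) a = f) ↔
        vi k f ≤ 1 := by
      intro f
      rw [← mem_infRing]
      constructor
      · rintro ⟨a, rfl⟩
        exact a.2
      · intro hf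
        exact ⟨⟨f, hf⟩, rfl⟩
    have hexp : ∀ q : RatFunc k, vi k (q ^ 2 * algebraMap k[X] (RatFunc k) h) ≤ 1 ↔
        vi k q ≤ exp (-((g : ℤ) + 1)) := by
      intro q
      by_cases hq : q = 0
      · simp [hq]
      · rw [map_mul, map_pow, vi_poly hh, hd, vi_of_nonzero hq, ← exp_nsmul, ← exp_add, ← exp_zero,
          exp_le_exp, exp_le_exp]
        simp only [nsmul_eq_mul, Nat.cast_ofNat]
        push_cast
        omega
    rw [hiff, hiff]
    simp only [Matrix.cons_val_zero, Matrix.cons_val_one, neg_zero, exp_zero]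
    constructor
    · rintro ⟨hs, hn⟩
      have h1 : vi k (b.repr z 0) ≤ 1 := by
        rw [map_mul, two_eq_C, vi_C h2k, one_mul] at hs
        exact hs
      refine ⟨h1, (hexp _).1 ?_⟩
      have h3 : b.repr z 1 ^ 2 * algebraMap k[X] (RatFunc k) h = b.repr z 0 ^ 2 -
          (b.repr z 0 ^ 2 - b.repr z 1 ^ 2 * algebraMap k[X] (RatFunc k) h) := by ring
      rw [h3]
      refine (Valuation.map_sub _ _ _).trans (max_le ?_ hn)
      rw [map_pow]
      exact pow_le_one₀ zero_le h1
    · rintro ⟨hp, hq⟩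
      refine ⟨?_, ?_⟩
      · rw [map_mul, two_eq_C, vi_C h2k, one_mul]
        exact hp
      · refine (Valuation.map_sub _ _ _).trans (max_le ?_ ((hexp _).2 hq))
        rw [map_pow]
        exact pow_le_one₀ zero_le hp

include hb0 hb1 in
theorem quad_genus [FiniteDimensional (RatFunc k) K] {g : ℕ} (hd : h.natDegree = 2 * g + 1)
    (hsq : Squarefree h) : genus k K = g := by
  rw [(quad_adapted b h hb0 hb1 hd hsq).genus_eq, Fin.sum_univ_two]
  simp

end quad

end H248
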