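import Pool.Agent.H248R4.M1

/-!
Uniqueness of the pencil of degree two on a hyperelliptic curve of genus at least two.
-/

set_option autoImplicit false
set_option linter.unusedSectionVars false

open Polynomial WithZero Module
open scoped nonZeroDivisors

namespace H248

section bivariate

variable {k : Type*} [Field k]

theorem swap_coeff (P : k[X][X]) (i j : ℕ) :
    ((Bivariate.swap P).coeff i).coeff j = (P.coeff j).coeff i := by
  induction P using Polynomial.induction_on' with
  | add p q hp hq => simp only [map_add, coeff_add, hp, hq]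
  | monomial n a =>
    induction a using Polynomial.induction_on' with
    | add p q hp hq => simp only [map_add, coeff_add, hp, hq]
    | monomial m r =>
      rw [Bivariate.swap_monomial_monomial]
      simp only [coeff_monomial]
      by_cases h1 : m = i <;> by_cases h2 : n = j <;> simp [h1, h2, coeff_monomial]

theorem natDegree_swap_le {P : k[X][X]} {N : ℕ} (h : ∀ j, (P.coeff j).natDegree ≤ N) :
    (Bivariate.swap P).natDegree ≤ N := by
  rw [natDegree_le_iff_coeff_eq_zero]
  intro i hi
  ext j
  rw [swap_coeff, coeff_zero]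
  exact coeff_eq_zero_of_natDegree_lt ((h j).trans_lt hi)

theorem coeff_natDegree_le (P : k[X][X]) (j : ℕ) :
    (P.coeff j).natDegree ≤ (Bivariate.swap P).natDegree := by
  rw [natDegree_le_iff_coeff_eq_zero]
  intro i hi
  rw [← swap_coeff, coeff_eq_zero_of_natDegree_lt hi, coeff_zero]

theorem factor_bound {P Q : k[X][X]} {N : ℕ} (hQ : Q ≠ 0) (hPQ : P ∣ Q)
    (h : ∀ j, (Q.coeff j).natDegree ≤ N) (j : ℕ) : (P.coeff j).natDegree ≤ N := by
  obtain ⟨R, rfl⟩ := hPQ
  have h1 := natDegree_swap_le h
  have hP : Bivariate.swap P ≠ 0 := by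
    rw [Ne, EmbeddingLike.map_eq_zero_iff]
    exact left_ne_zero_of_mul hQ
  have hR : Bivariate.swap R ≠ 0 := by
    rw [Ne, EmbeddingLike.map_eq_zero_iff]
    exact right_ne_zero_of_mul hQ
  rw [map_mul, natDegree_mul hP hR] at h1
  exact (coeff_natDegree_le P j).trans (by omega)

end bivariate

section quad

variable {k : Type*} [Field k] [IsAlgClosed k] [CharZero k] {K : Type*} [Field K]
  [Algebra (RatFunc k) K] [Algebra k[X] K] [Algebra k K] [IsScalarTower k[X] (RatFunc k) K]
  [IsScalarTower k (RatFunc k) K]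
  (b : Basis (Fin 2) (RatFunc k) K) (h : k[X]) (hb0 : b 0 = 1)
  (hb1 : b 1 ^ 2 = algebraMap (RatFunc k) K (algebraMap k[X] (RatFunc k) h))

theorem tower_kX : IsScalarTower k k[X] K := by
  refine IsScalarTower.of_algebraMap_eq fun c => ?_
  rw [IsScalarTower.algebraMap_apply k (RatFunc k) K,
    IsScalarTower.algebraMap_apply k[X] (RatFunc k) K, alg_k_eq]
  congr 1

include hb0 hb1 in
theorem pencil_aux [FiniteDimensional (RatFunc k) K] {g : ℕ} (hd : h.natDegree = 2 * g + 1)
    (hg : 2 ≤ g) (hsq : Squarefree h) (z : K) (Q : k[X][X]) (hQ0 : Q ≠ 0)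
    (hQ : aeval z Q = 0) (hQd : ∀ j, (Q.coeff j).natDegree ≤ 2) : b.repr z 1 = 0 := by
  classical
  by_contra hq
  set p := b.repr z 0 with hp
  set q := b.repr z 1 with hqdef
  set N : RatFunc k := p ^ 2 - q ^ 2 * algebraMap k[X] (RatFunc k) h with hN
  set m : (RatFunc k)[X] := X ^ 2 + (C (-(2 * p)) * X + C N) with hm
  have hmm : m.Monic := by
    refine Polynomial.monic_X_pow_add ?_
    exact (Polynomial.degree_linear_le).trans_lt (by norm_num)
  have hmd : m.degree = 2 := by
    rw [hm, Polynomial.degree_add_eq_left_of_degree_lt]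
    · simp
    · rw [degree_X_pow]
      exact (Polynomial.degree_linear_le).trans_lt (by norm_num)
  have hmz : aeval z m = 0 := by
    have h1 := quad_rel b h hb0 hb1 z
    rw [← hp, ← hqdef, ← hN] at h1
    simp only [map_mul] at h1
    simp only [hm, map_add, map_pow, aeval_X, map_mul, aeval_C, map_neg]
    linear_combination h1
  -- `m` divides the image of `Q`
  have hdvd : m ∣ Q.map (algebraMap k[X] (RatFunc k)) := by
    rw [← Polynomial.modByMonic_eq_zero_iff_dvd hmm]
    have hR : aeval z (Q.map (algebraMap k[X] (RatFunc k)) %ₘ m) = 0 := by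
      rw [Polynomial.aeval_modByMonic_eq_self_of_root hmz, aeval_map_algebraMap, hQ]
    have hRd : (Q.map (algebraMap k[X] (RatFunc k)) %ₘ m).natDegree ≤ 1 := by
      have h1 := Polynomial.degree_modByMonic_lt (Q.map (algebraMap k[X] (RatFunc k))) hmm
      rw [hmd] at h1
      by_cases h0 : Q.map (algebraMap k[X] (RatFunc k)) %ₘ m = 0
      · rw [h0]; simp
      · have := (Polynomial.natDegree_lt_iff_degree_lt h0 (n := 2)).2 (by exact_mod_cast h1)
        omega
    obtain ⟨r1, r0, hr⟩ := Polynomial.exists_eq_X_add_C_of_natDegree_le_one hRd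
    rw [hr] at hR ⊢
    simp only [map_add, map_mul, aeval_C, aeval_X] at hR
    have h2 : algebraMap (RatFunc k) K (r1 * p + r0) + algebraMap (RatFunc k) K (r1 * q) * b 1
        = 0 := by
      rw [quad_eq b hb0 z, ← hp, ← hqdef] at hR
      simp only [map_add, map_mul]
      linear_combination hR
    have h3 := quad_repr b hb0 (r1 * p + r0) (r1 * q)
    rw [h2] at h3
    simp only [map_zero, Finsupp.coe_zero, Pi.zero_apply] at h3
    have h4 : r1 = 0 := (mul_eq_zero.1 h3.2.symm).resolve_right hq
    have h5 : r0 = 0 := by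
      have := h3.1
      rw [h4, zero_mul, zero_add] at this
      exact this.symm
    rw [h4, h5]
    simp
  -- a primitive polynomial
  obtain ⟨⟨D, hD⟩, hDm⟩ := IsLocalization.integerNormalization_map_to_map (k[X]⁰) m
  set P0 := IsLocalization.integerNormalization (k[X]⁰) m with hP0
  letI : NormalizedGCDMonoid k[X] := (inferInstance : Nonempty (NormalizedGCDMonoid k[X])).some
  have hD0 : algebraMap k[X] (RatFunc k) D ≠ 0 := by
    rw [Ne, map_eq_zero_iff _ (RatFunc.algebraMap_injective k)]
    exact nonZeroDivisors.ne_zero hD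
  have hDm' : P0.map (algebraMap k[X] (RatFunc k)) = C (algebraMap k[X] (RatFunc k) D) * m := by
    rw [hDm]
    change (D : k[X]) • m = _
    rw [← algebraMap_smul (RatFunc k) D m, Polynomial.smul_eq_C_mul]
  have hP0ne : P0 ≠ 0 := by
    intro h0
    rw [h0, Polynomial.map_zero] at hDm'
    have := (mul_eq_zero.1 hDm'.symm).resolve_right hmm.ne_zero
    rw [Polynomial.C_eq_zero] at this
    exact hD0 this
  set P := P0.primPart with hP
  have hprim : P.IsPrimitive := P0.isPrimitive_primPart
  have hcont : algebraMap k[X] (RatFunc k) P0.content ≠ 0 := by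
    rw [Ne, map_eq_zero_iff _ (RatFunc.algebraMap_injective k), Polynomial.content_eq_zero_iff]
    exact hP0ne
  obtain ⟨c, hc0, hc⟩ : ∃ c : RatFunc k, c ≠ 0 ∧ P.map (algebraMap k[X] (RatFunc k)) = C c * m := by
    refine ⟨(algebraMap k[X] (RatFunc k) P0.content)⁻¹ * algebraMap k[X] (RatFunc k) D,
      mul_ne_zero (inv_ne_zero hcont) hD0, ?_⟩
    have h1 := P0.eq_C_content_mul_primPart
    rw [h1, Polynomial.map_mul, Polynomial.map_C] at hDm'
    rw [map_mul, mul_assoc, ← hDm', ← mul_assoc, ← map_mul, inv_mul_cancel₀ hcont, map_one,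
      one_mul]
  have hPQ : P ∣ Q := by
    refine hprim.dvd_of_fraction_map_dvd_fraction_map (K := RatFunc k) ?_
    rw [hc]
    exact (isUnit_C.2 (isUnit_iff_ne_zero.2 hc0)).mul_left_dvd.2 hdvd
  have hPd := factor_bound hQ0 hPQ hQd
  have hcoef : ∀ j, algebraMap k[X] (RatFunc k) (P.coeff j) = c * m.coeff j := by
    intro j
    rw [← Polynomial.coeff_map, hc, Polynomial.coeff_C_mul]
  have hm2 : m.coeff 2 = 1 := by
    rw [hm]
    simp [coeff_X, coeff_C]
  have hm1 : m.coeff 1 = -(2 * p) := by
    rw [hm]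
    simp [coeff_X, coeff_C]
  have hm0 : m.coeff 0 = N := by
    rw [hm]
    simp
  have hA := hcoef 2
  have hB := hcoef 1
  have hC := hcoef 0
  rw [hm2, mul_one] at hA
  rw [hm1] at hB
  rw [hm0] at hC
  -- the integral element
  have hrel := quad_rel b h hb0 hb1 z
  rw [← hp, ← hqdef, ← hN] at hrel
  set A := P.coeff 2
  set B := P.coeff 1
  set C0 := P.coeff 0
  have hw : (algebraMap (RatFunc k) K c * z) ^ 2 + algebraMap k[X] K B *
      (algebraMap (RatFunc k) K c * z) + algebraMap k[X] K (A * C0) = 0 := by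
    rw [IsScalarTower.algebraMap_apply k[X] (RatFunc k) K,
      IsScalarTower.algebraMap_apply k[X] (RatFunc k) K (A * C0), map_mul, hA, hB, hC]
    simp only [map_mul, map_neg, map_ofNat] at hrel ⊢
    linear_combination (algebraMap (RatFunc k) K c) ^ 2 * hrel
  have hrepr : b.repr (algebraMap (RatFunc k) K c * z) 1 = c * q := by
    rw [← Algebra.smul_def, map_smul, Finsupp.smul_apply, smul_eq_mul]
  have had := quad_adapted b h hb0 hb1 hd hsq
  have h1 : IsPoly (c * q) := by
    rw [← hrepr]
    refine (had.fin _).1 ?_ 1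
    refine ⟨X ^ 2 + (C B * X + C (A * C0)), ?_, ?_⟩
    · refine Polynomial.monic_X_pow_add ?_
      exact (Polynomial.degree_linear_le).trans_lt (by norm_num)
    · simp only [eval₂_add, eval₂_pow, eval₂_X, eval₂_mul, eval₂_C]
      linear_combination hw
  have hX : (RatFunc.X : RatFunc k) ≠ 0 := RatFunc.X_ne_zero
  have hBm : (RatFunc.X : RatFunc k) ^ (-2 : ℤ) * algebraMap k[X] (RatFunc k) B ∈ infRing k := by
    rw [mem_infRing, vi_X_mul, exp_mul_le_one]
    by_cases hB0 : B = 0
    · rw [hB0]; simp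
    · rw [vi_poly hB0, exp_le_exp]
      have := hPd 1
      change B.natDegree ≤ 2 at this
      omega
  have hCm : (RatFunc.X : RatFunc k) ^ (-4 : ℤ) * algebraMap k[X] (RatFunc k) (A * C0) ∈
      infRing k := by
    rw [mem_infRing, vi_X_mul, exp_mul_le_one]
    by_cases hB0 : A * C0 = 0
    · rw [hB0]; simp
    · rw [vi_poly hB0, exp_le_exp]
      have h3 := hPd 2
      have h4 := hPd 0
      change A.natDegree ≤ 2 at h3
      change C0.natDegree ≤ 2 at h4
      have h5 := Polynomial.natDegree_mul_le (p := A) (q := C0)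
      omega
  have h2 : vi k ((RatFunc.X : RatFunc k) ^ (-2 : ℤ) * (c * q)) ≤ exp (-((g : ℤ) + 1)) := by
    have h3 : b.repr (algebraMap (RatFunc k) K ((RatFunc.X : RatFunc k) ^ (-2 : ℤ)) *
        (algebraMap (RatFunc k) K c * z)) 1 = (RatFunc.X : RatFunc k) ^ (-2 : ℤ) * (c * q) := by
      rw [← Algebra.smul_def, map_smul, Finsupp.smul_apply, smul_eq_mul, hrepr]
    rw [← h3]
    refine (had.inf _).1 ?_ 1
    refine ⟨X ^ 2 + (C (⟨_, hBm⟩ : infRing k) * X + C (⟨_, hCm⟩ : infRing k)), ?_, ?_⟩
    · refine Polynomial.monic_X_pow_add ?_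
      exact (Polynomial.degree_linear_le).trans_lt (by norm_num)
    · simp only [eval₂_add, eval₂_pow, eval₂_X, eval₂_mul, eval₂_C]
      have e1 : ∀ x : infRing k, algebraMap (infRing k) K x = algebraMap (RatFunc k) K x :=
        fun x => rfl
      rw [e1, e1]
      simp only [map_mul]
      rw [← IsScalarTower.algebraMap_apply k[X] (RatFunc k) K,
        ← IsScalarTower.algebraMap_apply k[X] (RatFunc k) K A,
        ← IsScalarTower.algebraMap_apply k[X] (RatFunc k) K C0, ← map_mul (algebraMap k[X] K)]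
      have e2 : algebraMap (RatFunc k) K ((RatFunc.X : RatFunc k) ^ (-4 : ℤ)) =
          algebraMap (RatFunc k) K ((RatFunc.X : RatFunc k) ^ (-2 : ℤ)) ^ 2 := by
        rw [← map_pow, ← zpow_natCast, ← zpow_mul]
        norm_num
      rw [e2]
      linear_combination (algebraMap (RatFunc k) K ((RatFunc.X : RatFunc k) ^ (-2 : ℤ))) ^ 2 * hw
  rw [vi_X_mul, exp_mul_le] at h2
  have h3 : c * q = 0 := by
    refine isPoly_eq_zero h1 (h2.trans_lt ?_)
    rw [← exp_zero, exp_lt_exp]
    omega
  rcases mul_eq_zero.1 h3 with h4 | h4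
  · exact hc0 h4
  · exact hq h4

end quad

end H248
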