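import Pool.Agent.H248R4.M2

/-!
Isomorphisms between hyperelliptic function fields of genus at least two.
-/

set_option autoImplicit false
set_option linter.unusedSectionVars false

open Polynomial WithZero Module
open scoped nonZeroDivisors IntermediateField

namespace H248

section iso

variable {k : Type*} [Field k] [IsAlgClosed k] [CharZero k]

theorem denom_mul_self (f : RatFunc k) : algebraMap k[X] (RatFunc k) f.denom * f =
    algebraMap k[X] (RatFunc k) f.num := by
  have hd : algebraMap k[X] (RatFunc k) f.denom ≠ 0 := by simpa using f.denom_ne_zero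
  have := f.num_div_denom
  rw [div_eq_iff hd] at this
  rw [this, mul_comm]

/-- clearing denominators -/
theorem exists_clear (f g : RatFunc k) : ∃ α β γ : k[X], α ≠ 0 ∧
    algebraMap k[X] (RatFunc k) β = algebraMap k[X] (RatFunc k) α * f ∧
    algebraMap k[X] (RatFunc k) γ = algebraMap k[X] (RatFunc k) α * g := by
  refine ⟨f.denom * g.denom, f.num * g.denom, f.denom * g.num,
    mul_ne_zero f.denom_ne_zero g.denom_ne_zero, ?_, ?_⟩
  · rw [map_mul, map_mul, ← denom_mul_self f]
    ring
  · rw [map_mul, map_mul, ← denom_mul_self g]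
    ring

theorem aeval_X_eq {K : Type*} [Field K] [Algebra (RatFunc k) K] [Algebra k[X] K] [Algebra k K]
    [IsScalarTower k[X] (RatFunc k) K] [IsScalarTower k (RatFunc k) K] (p : k[X]) :
    aeval (algebraMap (RatFunc k) K RatFunc.X) p = algebraMap k[X] K p := by
  rw [aeval_algebraMap_apply, IsScalarTower.algebraMap_apply k[X] (RatFunc k) K]
  congr 1
  rw [← RatFunc.algebraMap_X, aeval_algebraMap_apply]
  simp

variable {K : Type*} [Field K]
  [Algebra (RatFunc k) K] [Algebra k[X] K] [Algebra k K] [IsScalarTower k[X] (RatFunc k) K]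
  [IsScalarTower k (RatFunc k) K]
  (b : Basis (Fin 2) (RatFunc k) K) (h : k[X]) (hb0 : b 0 = 1)
  (hb1 : b 1 ^ 2 = algebraMap (RatFunc k) K (algebraMap k[X] (RatFunc k) h))
  {K' : Type*} [Field K']
  [Algebra (RatFunc k) K'] [Algebra k[X] K'] [Algebra k K'] [IsScalarTower k[X] (RatFunc k) K']
  [IsScalarTower k (RatFunc k) K']
  (b' : Basis (Fin 2) (RatFunc k) K') (h' : k[X]) (hb0' : b' 0 = 1)
  (hb1' : b' 1 ^ 2 = algebraMap (RatFunc k) K' (algebraMap k[X] (RatFunc k) h'))
  (σ : K' ≃ₐ[k] K)

include hb0 hb1 hb0' hb1' in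
theorem pencil [FiniteDimensional (RatFunc k) K] {g : ℕ} (hd : h.natDegree = 2 * g + 1)
    (hg : 2 ≤ g) (hsq : Squarefree h) :
    b.repr (σ (algebraMap (RatFunc k) K' RatFunc.X)) 1 = 0 := by
  set z := σ (algebraMap (RatFunc k) K' RatFunc.X) with hz
  set ξ := σ.symm (algebraMap (RatFunc k) K RatFunc.X) with hξ
  obtain ⟨α, β, γ, hα, hβ, hγ⟩ := exists_clear (2 * b'.repr ξ 0)
    (b'.repr ξ 0 ^ 2 - b'.repr ξ 1 ^ 2 * algebraMap k[X] (RatFunc k) h')
  have hrel := quad_rel b' h' hb0' hb1' ξ
  have h1 : algebraMap k[X] K' α * ξ ^ 2 - algebraMap k[X] K' β * ξ + algebraMap k[X] K' γ = 0 := by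
    rw [IsScalarTower.algebraMap_apply k[X] (RatFunc k) K',
      IsScalarTower.algebraMap_apply k[X] (RatFunc k) K' β,
      IsScalarTower.algebraMap_apply k[X] (RatFunc k) K' γ, hβ, hγ, map_mul _ _ (2 * _),
      map_mul _ _ (_ - _)]
    linear_combination (algebraMap (RatFunc k) K' (algebraMap k[X] (RatFunc k) α)) * hrel
  have hσ : ∀ p : k[X], σ (algebraMap k[X] K' p) = aeval z p := by
    intro p
    rw [← aeval_X_eq, hz]
    exact (Polynomial.aeval_algHom_apply σ.toAlgHom _ p).symm
  have hσξ : σ ξ = algebraMap (RatFunc k) K RatFunc.X := by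
    rw [hξ, AlgEquiv.apply_symm_apply]
  have h2 := congrArg σ h1
  simp only [map_add, map_sub, map_mul, map_pow, map_zero, hσ, hσξ] at h2
  haveI := tower_kX (k := k) (K := K)
  have hX : algebraMap (RatFunc k) K RatFunc.X = algebraMap k[X] K X := by
    rw [IsScalarTower.algebraMap_apply k[X] (RatFunc k) K, RatFunc.algebraMap_X]
  have hcoef : ∀ j, ((α.map C) * C (X ^ 2) - (β.map C) * C X + γ.map C : k[X][X]).coeff j =
      C (α.coeff j) * X ^ 2 + (C (-β.coeff j) * X + C (γ.coeff j)) := by
    intro j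
    simp only [coeff_add, coeff_sub, coeff_mul_C, coeff_map, map_neg]
    ring
  refine pencil_aux b h hb0 hb1 hd hg hsq z
    ((α.map C) * C (X ^ 2) - (β.map C) * C X + γ.map C) ?_ ?_ ?_
  · intro h0
    apply hα
    ext j
    have h3 := hcoef j
    rw [h0, coeff_zero] at h3
    have h4 := congrArg (fun p => Polynomial.coeff p 2) h3
    simp [coeff_X, coeff_C] at h4
    simpa using h4.symm
  · have hC : ∀ p : k[X], aeval z (p.map C : k[X][X]) = aeval z p := fun p =>
      Polynomial.aeval_map_algebraMap k[X] z p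
    simp only [map_add, map_sub, map_mul, hC, aeval_C, map_pow]
    rw [← hX]
    exact h2
  · intro j
    rw [hcoef j]
    refine (natDegree_add_le _ _).trans (max_le ?_ ?_)
    · exact natDegree_C_mul_X_pow_le _ _
    · exact natDegree_linear_le.trans (by norm_num)

include hb0 in
theorem quad_repr0 (p : RatFunc k) :
    b.repr (algebraMap (RatFunc k) K p) 0 = p ∧ b.repr (algebraMap (RatFunc k) K p) 1 = 0 := by
  have h1 := quad_repr b hb0 p 0
  rwa [map_zero (algebraMap (RatFunc k) K), zero_mul, add_zero] at h1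

include hb0 hb1 hb0' hb1' σ in
theorem moebius [FiniteDimensional (RatFunc k) K] [FiniteDimensional (RatFunc k) K'] {g : ℕ}
    (hd : h.natDegree = 2 * g + 1) (hd' : h'.natDegree = 2 * g + 1) (hg : 2 ≤ g)
    (hsq : Squarefree h) (hsq' : Squarefree h') :
    ∃ (α β γ δ : k) (r q : RatFunc k), α * δ - β * γ ≠ 0 ∧ q ≠ 0 ∧
      r * algebraMap k[X] (RatFunc k) (C γ * X + C δ) =
        algebraMap k[X] (RatFunc k) (C α * X + C β) ∧
      aeval r h' = q ^ 2 * algebraMap k[X] (RatFunc k) h := by
  have hinj := (algebraMap (RatFunc k) K).injective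
  have hinj' := (algebraMap (RatFunc k) K').injective
  have h1 := pencil b h hb0 hb1 b' h' hb0' hb1' σ hd hg hsq
  have h2 := pencil b' h' hb0' hb1' b h hb0 hb1 σ.symm hd' hg hsq'
  set r := b.repr (σ (algebraMap (RatFunc k) K' RatFunc.X)) 0 with hr
  set r' := b'.repr (σ.symm (algebraMap (RatFunc k) K RatFunc.X)) 0 with hr'
  have hz : σ (algebraMap (RatFunc k) K' RatFunc.X) = algebraMap (RatFunc k) K r := by
    conv_lhs => rw [quad_eq b hb0 (σ (algebraMap (RatFunc k) K' RatFunc.X)), h1]
    rw [map_zero (algebraMap (RatFunc k) K), zero_mul, add_zero]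
  have hξ : σ.symm (algebraMap (RatFunc k) K RatFunc.X) = algebraMap (RatFunc k) K' r' := by
    conv_lhs => rw [quad_eq b' hb0' (σ.symm (algebraMap (RatFunc k) K RatFunc.X)), h2]
    rw [map_zero (algebraMap (RatFunc k) K'), zero_mul, add_zero]
  have hσ : ∀ p : k[X], σ (algebraMap (RatFunc k) K' (algebraMap k[X] (RatFunc k) p)) =
      algebraMap (RatFunc k) K (aeval r p) := by
    intro p
    rw [← IsScalarTower.algebraMap_apply k[X] (RatFunc k) K', ← aeval_X_eq,
      ← aeval_algebraMap_apply K r p, ← hz]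
    exact (Polynomial.aeval_algHom_apply σ.toAlgHom _ p).symm
  have hne : ∀ p : k[X], p ≠ 0 → aeval r p ≠ 0 := by
    intro p hp h0
    have h3 := hσ p
    rw [h0, map_zero, map_eq_zero_iff _ σ.injective, map_eq_zero_iff _ hinj',
      map_eq_zero_iff _ (RatFunc.algebraMap_injective k)] at h3
    exact hp h3
  have hrange : ∀ f : RatFunc k, aeval r f.denom ≠ 0 ∧ σ (algebraMap (RatFunc k) K' f) =
      algebraMap (RatFunc k) K (aeval r f.num / aeval r f.denom) := by
    intro f
    have h3 := congrArg σ (congrArg (algebraMap (RatFunc k) K') (denom_mul_self f))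
    rw [map_mul, map_mul, hσ, hσ] at h3
    have h4 := hne _ f.denom_ne_zero
    refine ⟨h4, ?_⟩
    rw [map_div₀, eq_div_iff ((map_ne_zero_iff _ hinj).2 h4), mul_comm]
    exact h3
  -- `r` generates
  have hXr : (RatFunc.X : RatFunc k) = aeval r r'.num / aeval r r'.denom := by
    apply hinj
    rw [← (hrange r').2, ← hξ, AlgEquiv.apply_symm_apply]
  have htop : (k⟮r⟯ : IntermediateField k (RatFunc k)) = ⊤ := by
    rw [eq_top_iff, ← RatFunc.adjoin_X, IntermediateField.adjoin_simple_le_iff,
      IntermediateField.mem_adjoin_simple_iff]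
    exact ⟨_, _, hXr⟩
  have hdeg := RatFunc.finrank_eq_max_natDegree r
  rw [htop, IntermediateField.finrank_top] at hdeg
  obtain ⟨α, β, hnum⟩ := Polynomial.exists_eq_X_add_C_of_natDegree_le_one
    (p := r.num) (by rw [hdeg]; exact le_max_left _ _)
  obtain ⟨γ, δ, hden⟩ := Polynomial.exists_eq_X_add_C_of_natDegree_le_one
    (p := r.denom) (by rw [hdeg]; exact le_max_right _ _)
  have hrel : r * algebraMap k[X] (RatFunc k) (C γ * X + C δ) =
        algebraMap k[X] (RatFunc k) (C α * X + C β) := by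
    rw [← hnum, ← hden, mul_comm, denom_mul_self]
  have hden0 : (C γ * X + C δ : k[X]) ≠ 0 := by
    rw [← hden]; exact r.denom_ne_zero
  have hdet : α * δ - β * γ ≠ 0 := by
    intro h0
    obtain ⟨c, hc1, hc2⟩ : ∃ c : k, c * γ = α ∧ c * δ = β := by
      by_cases hγ : γ = 0
      · have hδ : δ ≠ 0 := by
          rintro rfl
          apply hden0
          rw [hγ]
          simp
        refine ⟨β / δ, ?_, div_mul_cancel₀ _ hδ⟩
        rw [hγ, mul_zero, sub_zero] at h0
        rw [hγ, mul_zero]
        exact ((mul_eq_zero.1 h0).resolve_right hδ).symm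
      · refine ⟨α / γ, div_mul_cancel₀ _ hγ, ?_⟩
        rw [div_mul_eq_mul_div, div_eq_iff hγ]
        linear_combination h0
    have h3 : r = RatFunc.C c := by
      have h4 : (algebraMap k[X] (RatFunc k) (C γ * X + C δ)) ≠ 0 := by
        rw [Ne, map_eq_zero_iff _ (RatFunc.algebraMap_injective k)]
        exact hden0
      apply mul_right_cancel₀ h4
      rw [hrel, ← RatFunc.algebraMap_C, ← map_mul, ← hc1, ← hc2]
      congr 1
      simp only [map_mul]
      ring
    rw [h3, RatFunc.num_C, RatFunc.denom_C] at hdeg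
    simp at hdeg
  -- the other generator
  set p := b.repr (σ (b' 1)) 0 with hp
  set q := b.repr (σ (b' 1)) 1 with hq
  have hy : σ (b' 1) = algebraMap (RatFunc k) K p + algebraMap (RatFunc k) K q * b 1 :=
    quad_eq b hb0 _
  have hy2 : algebraMap (RatFunc k) K (aeval r h') =
      algebraMap (RatFunc k) K (p ^ 2 + q ^ 2 * algebraMap k[X] (RatFunc k) h) +
      algebraMap (RatFunc k) K (2 * p * q) * b 1 := by
    rw [← hσ, ← hb1', map_pow, hy]
    simp only [map_mul, map_add, map_pow, map_ofNat]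
    rw [← hb1]
    ring
  have hy3 := quad_repr b hb0 (p ^ 2 + q ^ 2 * algebraMap k[X] (RatFunc k) h) (2 * p * q)
  have hy4 := quad_repr0 b hb0 (aeval r h')
  rw [← hy2] at hy3
  have hq0 : q ≠ 0 := by
    intro h0
    rw [h0, map_zero (algebraMap (RatFunc k) K), zero_mul, add_zero] at hy
    have h5 : b 1 = algebraMap (RatFunc k) K
        (aeval r (b'.repr (σ.symm (b 1)) 0).num / aeval r (b'.repr (σ.symm (b 1)) 0).denom) +
        algebraMap (RatFunc k) K
        (aeval r (b'.repr (σ.symm (b 1)) 1).num / aeval r (b'.repr (σ.symm (b 1)) 1).denom) *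
        algebraMap (RatFunc k) K p := by
      rw [← (hrange _).2, ← (hrange _).2, ← hy, ← map_mul, ← map_add, ← quad_eq b' hb0',
        AlgEquiv.apply_symm_apply]
    rw [← map_mul, ← map_add] at h5
    have h6 := congrArg (fun t => b.repr t 1) h5
    have h7 := (quad_repr0 b hb0 (aeval r (b'.repr (σ.symm (b 1)) 0).num /
      aeval r (b'.repr (σ.symm (b 1)) 0).denom + aeval r (b'.repr (σ.symm (b 1)) 1).num /
      aeval r (b'.repr (σ.symm (b 1)) 1).denom * p)).2
    simp only [h7, Basis.repr_self, Finsupp.single_eq_same] at h6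
    exact one_ne_zero h6
  have hp0 : p = 0 := by
    have h5 : 2 * p * q = 0 := by
      rw [← hy3.2]
      exact hy4.2
    exact (mul_eq_zero.1 ((mul_eq_zero.1 h5).resolve_right hq0)).resolve_left two_ne_zero'
  refine ⟨α, β, γ, δ, r, q, hdet, hq0, hrel, ?_⟩
  have h5 := hy3.1
  rw [hy4.1, hp0] at h5
  rw [h5]
  ring

end iso

end H248
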