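import Pool.Agent.H248R4.M3

/-!
The curves `y² = xⁿ + A x` and `y² = xⁿ + B` are not isomorphic.
-/

set_option autoImplicit false
set_option linter.unusedSectionVars false

open Polynomial WithZero Module
open scoped nonZeroDivisors IntermediateField

namespace H248

theorem no_moebius {k : Type*} [Field k] [CharZero k] (m : ℕ) (hm : Odd (m + 3))
    (A B α β γ δ c : k) (hB : B ≠ 0) (hdet : α * δ - β * γ ≠ 0)
    (H : (C γ * X + C δ) * ((C α * X + C β) ^ (m + 3) + C B * (C γ * X + C δ) ^ (m + 3)) =
      C c * (X ^ (m + 3) + C A * X)) : False := by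
  have e0 : δ * (β ^ (m + 3) + B * δ ^ (m + 3)) = 0 := by
    have := congrArg (fun p => eval 0 p) H
    simpa using this
  have e2 : 2 * γ * (α * β ^ (m + 2) + B * γ * δ ^ (m + 2)) +
      δ * (m + 2) * (α ^ 2 * β ^ (m + 1) + B * γ ^ 2 * δ ^ (m + 1)) = 0 := by
    have := congrArg (fun p => eval 0 (derivative (derivative p))) H
    simp only [derivative_mul, derivative_add, derivative_C, derivative_X, derivative_pow,
      eval_add, eval_mul, eval_C, eval_X, eval_pow, zero_mul, mul_zero, add_zero, zero_add,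
      mul_one, Nat.add_one_sub_one, Nat.cast_add, Nat.cast_ofNat] at this
    have h3 : ((m : k) + 3) ≠ 0 := by exact_mod_cast (by omega : m + 3 ≠ 0)
    apply mul_left_cancel₀ h3
    rw [zero_pow (by omega : m + 1 ≠ 0)] at this
    linear_combination this
  have et : γ * (α ^ (m + 3) + B * γ ^ (m + 3)) = 0 := by
    have h1 : ∀ a b : k, ((C a * X + C b) ^ (m + 3)).coeff (m + 3) = a ^ (m + 3) := by
      intro a b
      have := coeff_pow_of_natDegree_le (p := C a * X + C b) (m := m + 3) (n := 1)
        natDegree_linear_le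
      rw [mul_one] at this
      rw [this]
      simp
    have h2 : ∀ a b : k, ((C a * X + C b) ^ (m + 3)).natDegree ≤ m + 3 := by
      intro a b
      refine natDegree_pow_le.trans ?_
      have : (C a * X + C b).natDegree ≤ 1 := natDegree_linear_le
      nlinarith
    have := congrArg (fun p => coeff p (1 + (m + 3))) H
    have h3 : (C c * (X ^ (m + 3) + C A * X) : k[X]).coeff (1 + (m + 3)) = 0 := by
      rw [coeff_C_mul, coeff_add, coeff_X_pow, coeff_C_mul, coeff_X, if_neg (by omega),
        if_neg (by omega)]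
      simp
    beta_reduce at this
    rw [h3, coeff_mul_add_eq_of_natDegree_le (natDegree_linear_le)
      ((natDegree_add_le _ _).trans (max_le (h2 _ _) ((natDegree_C_mul_le _ _).trans (h2 _ _))))]
      at this
    simp only [coeff_add, coeff_C_mul, h1, coeff_X_one, coeff_C_succ, mul_one, add_zero] at this
    exact this
  by_cases hδ : δ = 0
  · subst hδ
    have hβ : β ≠ 0 := by
      rintro rfl
      simp at hdet
    have hγ : γ ≠ 0 := by
      rintro rfl
      simp at hdet
    have h1 : α = 0 := by
      have : 2 * γ * β ^ (m + 2) * α = 0 := by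
        rw [zero_pow (by omega)] at e2
        linear_combination e2
      exact (mul_eq_zero.1 this).resolve_left
        (mul_ne_zero (mul_ne_zero two_ne_zero hγ) (pow_ne_zero _ hβ))
    rw [h1, zero_pow (by omega), zero_add] at et
    exact (mul_ne_zero hγ (mul_ne_zero hB (pow_ne_zero _ hγ))) et
  · have h1 : β ^ (m + 3) = -(B * δ ^ (m + 3)) :=
      eq_neg_of_add_eq_zero_left ((mul_eq_zero.1 e0).resolve_left hδ)
    have hβ : β ≠ 0 := by
      rintro rfl
      rw [zero_pow (by omega), eq_comm, neg_eq_zero] at h1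
      exact (mul_ne_zero hB (pow_ne_zero _ hδ)) h1
    have h2 : (m + 4) * (γ * β) = -((m + 2) * (α * δ)) := by
      have : δ * β ^ (m + 1) * (α * δ - β * γ) * ((m + 4) * (γ * β) + (m + 2) * (α * δ)) = 0 := by
        linear_combination δ ^ 2 * e2 - (2 * γ ^ 2 * δ + δ * (m + 2) * γ ^ 2) * h1
      exact eq_neg_of_add_eq_zero_left ((mul_eq_zero.1 this).resolve_left
        (mul_ne_zero (mul_ne_zero hδ (pow_ne_zero _ hβ)) hdet))
    by_cases hγ : γ = 0
    · subst hγ
      have h4 : ((m : k) + 2) ≠ 0 := by exact_mod_cast (by omega : m + 2 ≠ 0)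
      have : α * δ = 0 := by
        have h5 : ((m : k) + 2) * (α * δ) = 0 := by linear_combination h2
        exact (mul_eq_zero.1 h5).resolve_left h4
      apply hdet
      rw [this]
      simp
    · have h3 : α ^ (m + 3) = -(B * γ ^ (m + 3)) :=
        eq_neg_of_add_eq_zero_left ((mul_eq_zero.1 et).resolve_left hγ)
      have h4 : (α * δ) ^ (m + 3) = (γ * β) ^ (m + 3) := by
        rw [mul_pow, mul_pow, h3, h1]
        ring
      have h5 := congrArg (fun t => t ^ (m + 3)) h2
      simp only [hm.neg_pow] at h5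
      rw [mul_pow, mul_pow _ (α * δ), h4] at h5
      have h6 : (((m : k) + 4) ^ (m + 3) + ((m : k) + 2) ^ (m + 3)) * (γ * β) ^ (m + 3) = 0 := by
        linear_combination h5
      have h7 : (((m : k) + 4) ^ (m + 3) + ((m : k) + 2) ^ (m + 3)) ≠ 0 := by
        have : ((m + 4) ^ (m + 3) + (m + 2) ^ (m + 3) : ℕ) ≠ 0 := by positivity
        exact_mod_cast this
      exact (mul_ne_zero h7 (pow_ne_zero _ (mul_ne_zero hγ hβ))) h6

/-- from a Möbius transformation of rational functions to polynomials -/
theorem moebius_poly {k : Type*} [Field k] [IsAlgClosed k] [CharZero k] {g : ℕ} (h : k[X])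
    (B α β γ δ : k) (r q : RatFunc k) (hd : h.natDegree = 2 * g + 1) (hsq : Squarefree h)
    (hdet : α * δ - β * γ ≠ 0) (hq : q ≠ 0)
    (hr : r * algebraMap k[X] (RatFunc k) (C γ * X + C δ) =
        algebraMap k[X] (RatFunc k) (C α * X + C β))
    (hh : aeval r (X ^ (2 * g + 1) + C B) = q ^ 2 * algebraMap k[X] (RatFunc k) h) :
    ∃ c : k, (C γ * X + C δ) * ((C α * X + C β) ^ (2 * g + 1) +
      C B * (C γ * X + C δ) ^ (2 * g + 1)) = C c * h := by
  set w : k[X] := C γ * X + C δ with hw
  set v : k[X] := C α * X + C β with hv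
  have hw0 : w ≠ 0 := by
    intro h0
    have h1 : γ = 0 := by
      have := congrArg (fun p => coeff p 1) h0
      simpa [hw] using this
    have h2 : δ = 0 := by
      have := congrArg (fun p => coeff p 0) h0
      simpa [hw] using this
    apply hdet
    rw [h1, h2]
    simp
  have hW0 : algebraMap k[X] (RatFunc k) w ≠ 0 := by
    rw [Ne, map_eq_zero_iff _ (RatFunc.algebraMap_injective k)]
    exact hw0
  have h1 : algebraMap k[X] (RatFunc k) (w * (v ^ (2 * g + 1) + C B * w ^ (2 * g + 1))) =
      (q * algebraMap k[X] (RatFunc k) w ^ (g + 1)) ^ 2 * algebraMap k[X] (RatFunc k) h := by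
    simp only [map_add, map_pow, aeval_X, aeval_C] at hh
    have hB : algebraMap k[X] (RatFunc k) (C B) = algebraMap k (RatFunc k) B := by
      rw [alg_k_eq, RatFunc.algebraMap_C]
    simp only [map_mul, map_add, map_pow]
    rw [← hr, hB]
    linear_combination (algebraMap k[X] (RatFunc k) w ^ (2 * g + 2)) * hh
  have h2 : IsPoly ((q * algebraMap k[X] (RatFunc k) w ^ (g + 1)) ^ 2 *
      algebraMap k[X] (RatFunc k) h) := ⟨_, h1⟩
  obtain ⟨u, hu⟩ := isPoly_of_sq_mul hsq h2
  rw [← hu, ← map_pow, ← map_mul] at h1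
  have h3 := RatFunc.algebraMap_injective k h1
  have hu0 : u ≠ 0 := by
    rintro rfl
    rw [map_zero, eq_comm] at hu
    exact (mul_ne_zero hq (pow_ne_zero _ hW0)) hu
  have hh0 : h ≠ 0 := by
    rintro rfl
    simp at hd
  have h4 : u.natDegree = 0 := by
    have h5 : (w * (v ^ (2 * g + 1) + C B * w ^ (2 * g + 1))).natDegree ≤ 1 + (2 * g + 1) := by
      have hlin : ∀ a b : k, ((C a * X + C b) ^ (2 * g + 1)).natDegree ≤ 2 * g + 1 := by
        intro a b
        refine natDegree_pow_le.trans ?_
        have : (C a * X + C b).natDegree ≤ 1 := natDegree_linear_le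
        nlinarith
      refine natDegree_mul_le.trans (add_le_add natDegree_linear_le ?_)
      exact (natDegree_add_le _ _).trans (max_le (hlin _ _)
        ((natDegree_C_mul_le _ _).trans (hlin _ _)))
    rw [h3, natDegree_mul (pow_ne_zero _ hu0) hh0, natDegree_pow, hd] at h5
    omega
  obtain ⟨c, hc⟩ := natDegree_eq_zero.1 h4
  refine ⟨c ^ 2, ?_⟩
  rw [h3, ← hc, map_pow]

end H248
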