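import Pool.Agent.H248R4.Defs
import Pool.Agent.H248R4.M4

/-!
Scaling isomorphisms between the curves `y² = h(x)`.
-/

set_option autoImplicit false
set_option linter.unusedSectionVars false

open Polynomial Module

namespace H248

section FF

variable {k : Type*} [Field k]

theorem FF_iso {h h' : k[X]} (l m : k) (hl : l ≠ 0) (hm : m ≠ 0)
    (hh : h'.comp (C l * X) = C (m ^ 2) * h) : Nonempty (FF h' ≃ₐ[k] FF h) := by
  letI := invertibleOfNonzero hl
  let τ : RatFunc k ≃ₐ[k] RatFunc k :=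
    IsFractionRing.algEquivOfAlgEquiv (algEquivCMulXAddC l 0 : k[X] ≃ₐ[k] k[X])
  have hτ : ∀ p : k[X], τ (algebraMap k[X] (RatFunc k) p) =
      algebraMap k[X] (RatFunc k) (p.comp (C l * X)) := by
    intro p
    change IsFractionRing.algEquivOfAlgEquiv _ _ = _
    rw [IsFractionRing.algEquivOfAlgEquiv_algebraMap]
    congr 1
    simp [comp_eq_aeval]
  have hm' : (RatFunc.C m) ≠ 0 := by
    rw [Ne, map_eq_zero]
    exact hm
  letI := invertibleOfNonzero hm'
  let Ψ : (RatFunc k)[X] ≃ₐ[k] (RatFunc k)[X] :=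
    (Polynomial.mapAlgEquiv τ).trans
      ((algEquivCMulXAddC (RatFunc.C m) 0 : (RatFunc k)[X] ≃ₐ[RatFunc k] (RatFunc k)[X]).restrictScalars k)
  have hΨ : Ψ (hypPoly h') = C ((RatFunc.C m) ^ 2) * hypPoly h := by
    change (algEquivCMulXAddC (RatFunc.C m) 0 : (RatFunc k)[X] ≃ₐ[RatFunc k] (RatFunc k)[X])
      (Polynomial.mapAlgEquiv τ (hypPoly h')) = _
    have h1 : Polynomial.mapAlgEquiv τ (hypPoly h') = X ^ 2 - C (RatFunc.C m ^ 2 *
        algebraMap k[X] (RatFunc k) h) := by
      simp only [hypPoly, Polynomial.coe_mapAlgEquiv, Polynomial.map_sub, Polynomial.map_pow,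
        Polynomial.map_X, Polynomial.map_C]
      congr 2
      change τ _ = _
      rw [hτ, hh, map_mul, ← RatFunc.algebraMap_C, ← map_pow, ← map_pow]
    rw [h1, algEquivCMulXAddC_apply]
    simp only [hypPoly, map_sub, map_pow, aeval_X, map_zero, add_zero, aeval_C, map_mul]
    simp only [Polynomial.algebraMap_eq]
    ring
  refine ⟨Ideal.quotientEquivAlg (Ideal.span {hypPoly h'}) (Ideal.span {hypPoly h}) Ψ ?_⟩
  rw [Ideal.map_span, Set.image_singleton]
  change _ = Ideal.span {Ψ (hypPoly h')}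
  rw [hΨ, Ideal.span_singleton_mul_left_unit]
  exact isUnit_C.2 ((isUnit_iff_ne_zero.2 hm').pow 2)

end FF

end H248
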