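import Pool.Agent.H248R4.M5

/-!
The family `y² = xⁿ + a x + b`, `n = 2 g + 1`.
-/

set_option autoImplicit false
set_option linter.unusedSectionVars false

open Polynomial Module

namespace H248

section FF

variable {k : Type*} [Field k]

theorem hypPoly_monic (h : k[X]) : (hypPoly h).Monic := by
  rw [hypPoly]
  exact monic_X_pow_sub_C _ (by norm_num)

theorem hypPoly_natDegree (h : k[X]) : (hypPoly h).natDegree = 2 := by
  rw [hypPoly]
  exact natDegree_X_pow_sub_C

theorem hypPoly_irreducible {g : ℕ} {h : k[X]} (hd : h.natDegree = 2 * g + 1) :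
    Irreducible (hypPoly h) :=
  X_pow_sub_C_irreducible_of_prime Nat.prime_two (not_sq hd)

variable [IsAlgClosed k] [CharZero k]

theorem FF_basis (h : k[X]) : ∃ b : Basis (Fin 2) (RatFunc k) (FF h), b 0 = 1 ∧
    b 1 ^ 2 = algebraMap (RatFunc k) (FF h) (algebraMap k[X] (RatFunc k) h) := by
  let P := AdjoinRoot.powerBasis' (hypPoly_monic h)
  have hdim : P.dim = 2 := hypPoly_natDegree h
  refine ⟨P.basis.reindex (finCongr hdim), ?_, ?_⟩
  · rw [Basis.reindex_apply, P.basis_eq_pow]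
    simp
  · rw [Basis.reindex_apply, P.basis_eq_pow]
    have h1 : P.gen = AdjoinRoot.root (hypPoly h) := rfl
    have h2 : (((finCongr hdim).symm 1 : Fin P.dim) : ℕ) = 1 := by simp
    rw [h1, h2, pow_one]
    have h3 := AdjoinRoot.eval₂_root (hypPoly h)
    rw [hypPoly, eval₂_sub, eval₂_pow, eval₂_X, eval₂_C, sub_eq_zero] at h3
    exact h3

theorem hypGenus_eq {g : ℕ} {h : k[X]} (hd : h.natDegree = 2 * g + 1) (hsq : Squarefree h)
    (hirr : Irreducible (hypPoly h)) : hypGenus h hirr = g := by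
  haveI : Fact (Irreducible (hypPoly h)) := ⟨hirr⟩
  obtain ⟨b, hb0, hb1⟩ := FF_basis h
  haveI : FiniteDimensional (RatFunc k) (FF h) := Module.Finite.of_basis b
  exact quad_genus b h hb0 hb1 hd hsq

theorem fam_natDegree {g : ℕ} (hg : 1 ≤ g) (a b : k) :
    (X ^ (2 * g + 1) + C a * X + C b : k[X]).natDegree = 2 * g + 1 := by
  rw [add_assoc]
  rw [natDegree_add_eq_left_of_natDegree_lt, natDegree_X_pow]
  rw [natDegree_X_pow]
  exact natDegree_linear_le.trans_lt (by omega)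

theorem not_iso {g : ℕ} (hg : 2 ≤ g) (A B : k) (hB : B ≠ 0)
    (hsq : Squarefree (X ^ (2 * g + 1) + C A * X : k[X]))
    (hsq' : Squarefree (X ^ (2 * g + 1) + C B : k[X])) :
    IsEmpty (FF (X ^ (2 * g + 1) + C B : k[X]) ≃ₐ[k] FF (X ^ (2 * g + 1) + C A * X : k[X])) := by
  refine ⟨fun σ => ?_⟩
  set h : k[X] := X ^ (2 * g + 1) + C A * X with hh
  set h' : k[X] := X ^ (2 * g + 1) + C B with hh'
  have hd : h.natDegree = 2 * g + 1 := by
    have := fam_natDegree (g := g) (by omega) A (0 : k)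
    rwa [map_zero, add_zero] at this
  have hd' : h'.natDegree = 2 * g + 1 := by
    have := fam_natDegree (g := g) (by omega) (0 : k) B
    rwa [map_zero, zero_mul, add_zero] at this
  haveI : Fact (Irreducible (hypPoly h)) := ⟨hypPoly_irreducible hd⟩
  haveI : Fact (Irreducible (hypPoly h')) := ⟨hypPoly_irreducible hd'⟩
  obtain ⟨b, hb0, hb1⟩ := FF_basis h
  obtain ⟨b', hb0', hb1'⟩ := FF_basis h'
  haveI : FiniteDimensional (RatFunc k) (FF h) := Module.Finite.of_basis b
  haveI : FiniteDimensional (RatFunc k) (FF h') := Module.Finite.of_basis b'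
  obtain ⟨α, β, γ, δ, r, q, hdet, hq0, hr, hq⟩ :=
    moebius b h hb0 hb1 b' h' hb0' hb1' σ hd hd' hg hsq hsq'
  obtain ⟨c, hc⟩ := moebius_poly h B α β γ δ r q hd hsq hdet hq0 hr hq
  have h1 : 2 * g + 1 = (2 * g - 2) + 3 := by omega
  rw [hh, h1] at hc
  refine no_moebius (2 * g - 2) ?_ A B α β γ δ c hB hdet hc
  rw [← h1]
  exact odd_two_mul_add_one g

end FF

section scale

variable {k : Type*} [Field k] [IsAlgClosed k] [CharZero k]

theorem exists_scale {g : ℕ} (hg : 1 ≤ g) (a b a' b' : k) (ha : a ^ (2 * g + 1) = a' ^ (2 * g + 1))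
    (hb : b ^ (2 * g) = b' ^ (2 * g)) (h0 : a ≠ 0 ∨ b ≠ 0) :
    ∃ l : k, l ≠ 0 ∧ a' = l ^ (2 * g) * a ∧ b' = l ^ (2 * g + 1) * b := by
  have hz1 : a = 0 ↔ a' = 0 := by
    constructor
    · rintro rfl
      rw [zero_pow (by omega), eq_comm] at ha
      exact pow_eq_zero_iff (by omega) |>.1 ha
    · rintro rfl
      rw [zero_pow (by omega)] at ha
      exact pow_eq_zero_iff (by omega) |>.1 ha
  have hz2 : b = 0 ↔ b' = 0 := by
    constructor
    · rintro rfl
      rw [zero_pow (by omega), eq_comm] at hb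
      exact pow_eq_zero_iff (by omega) |>.1 hb
    · rintro rfl
      rw [zero_pow (by omega)] at hb
      exact pow_eq_zero_iff (by omega) |>.1 hb
  by_cases hA : a = 0
  · have hA' := hz1.1 hA
    have hB : b ≠ 0 := h0.resolve_left (fun h => h hA)
    have hB' : b' ≠ 0 := fun h => hB (hz2.2 h)
    obtain ⟨l, hl⟩ := IsAlgClosed.exists_pow_nat_eq (b' / b) (n := 2 * g + 1) (by omega)
    refine ⟨l, ?_, ?_, ?_⟩
    · rintro rfl
      rw [zero_pow (by omega), eq_comm, div_eq_zero_iff] at hl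
      exact hl.elim hB' hB
    · rw [hA, hA', mul_zero]
    · rw [hl, div_mul_cancel₀ _ hB]
  by_cases hB : b = 0
  · have hB' := hz2.1 hB
    have hA' : a' ≠ 0 := fun h => hA (hz1.2 h)
    obtain ⟨l, hl⟩ := IsAlgClosed.exists_pow_nat_eq (a' / a) (n := 2 * g) (by omega)
    refine ⟨l, ?_, ?_, ?_⟩
    · rintro rfl
      rw [zero_pow (by omega), eq_comm, div_eq_zero_iff] at hl
      exact hl.elim hA' hA
    · rw [hl, div_mul_cancel₀ _ hA]
    · rw [hB, hB', mul_zero]
  have hA' : a' ≠ 0 := fun h => hA (hz1.2 h)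
  have hB' : b' ≠ 0 := fun h => hB (hz2.2 h)
  refine ⟨(b' / b) / (a' / a), div_ne_zero (div_ne_zero hB' hB) (div_ne_zero hA' hA), ?_, ?_⟩
  · rw [div_pow, div_pow, ← hb, div_self (pow_ne_zero _ hB), div_pow, one_div_div]
    rw [div_mul_eq_mul_div, eq_div_iff (pow_ne_zero _ hA'), ← pow_succ, ← pow_succ']
    exact ha.symm
  · rw [div_pow _ (a' / a), div_pow a' a, ← ha, div_self (pow_ne_zero _ hA), div_one, pow_succ,
      div_pow, ← hb, div_self (pow_ne_zero _ hB), one_mul, div_mul_cancel₀ _ hB]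

theorem iso_scale {g : ℕ} (hg : 1 ≤ g) (a b a' b' : k)
    (ha : a ^ (2 * g + 1) = a' ^ (2 * g + 1)) (hb : b ^ (2 * g) = b' ^ (2 * g))
    (h0 : a ≠ 0 ∨ b ≠ 0) :
    Nonempty (FF (X ^ (2 * g + 1) + C a * X + C b : k[X]) ≃ₐ[k]
      FF (X ^ (2 * g + 1) + C a' * X + C b' : k[X])) := by
  obtain ⟨l, hl, h1, h2⟩ := exists_scale hg a b a' b' ha hb h0
  obtain ⟨m, hm⟩ := IsAlgClosed.exists_pow_nat_eq (l ^ (2 * g + 1)) (n := 2) (by omega)
  have hm0 : m ≠ 0 := by
    rintro rfl
    rw [zero_pow (by norm_num), eq_comm] at hm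
    exact pow_ne_zero _ hl hm
  obtain ⟨e⟩ := FF_iso (h := (X ^ (2 * g + 1) + C a * X + C b : k[X]))
    (h' := (X ^ (2 * g + 1) + C a' * X + C b' : k[X])) l m hl hm0 (by
      rw [hm, h1, h2]
      simp only [add_comp, pow_comp, mul_comp, C_comp, X_comp, map_mul, map_pow]
      ring)
  exact ⟨e.symm⟩

end scale

section coprime

variable {R : Type*} [CommRing R]

theorem family_coprime (g : ℕ) (A B : R)
    (h : (2 * g : R) ^ (2 * g) * A ^ (2 * g + 1) + (2 * g + 1 : R) ^ (2 * g + 1) * B ^ (2 * g) = 1) :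
    IsCoprime (X ^ (2 * g + 1) + C A * X + C B : R[X])
      (derivative (X ^ (2 * g + 1) + C A * X + C B : R[X])) := by
  have hder : derivative (X ^ (2 * g + 1) + C A * X + C B : R[X]) =
      C (2 * g + 1 : R) * X ^ (2 * g) + C A := by
    simp only [derivative_add, derivative_X_pow, derivative_mul, derivative_C, derivative_X]
    simp
  rw [hder]
  obtain ⟨W, hW⟩ := sub_dvd_pow_sub_pow (C (2 * g * A : R) * X) (-(C ((2 * g + 1) * B : R)))
    (2 * g)
  rw [(even_two_mul g).neg_pow] at hW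
  refine ⟨-(C (2 * g + 1 : R) * C (2 * g + 1 : R) * W),
    C ((2 * g * A : R) ^ (2 * g)) + C (2 * g + 1 : R) * W * X, ?_⟩
  have h1 := congrArg C h
  simp only [map_mul, map_add, map_pow, map_one] at h1 hW ⊢
  rw [mul_pow (C 2 * C (g : R) + 1 : R[X]) (C B)] at hW
  linear_combination h1 + (C 2 * C (g : R) + 1) * hW

end coprime

end H248
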