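import Pool.Agent.H248R4.M6

/-!
The base `Spec R` of the family, finite over the affine line.
-/

set_option autoImplicit false
set_option linter.unusedSectionVars false

open Polynomial Module

namespace H248

section ring

variable (k : Type*) [Field k] (g : ℕ)

/-- `a ^ (2 g + 1) = c₁ T` with `c₁ = (2 g) ^ (- 2 g)`. -/
noncomputable def polA : k[X][X] :=
  X ^ (2 * g + 1) - C (C (((2 * g : k) ^ (2 * g))⁻¹) * X)

/-- `k[T][a]` -/
abbrev RA : Type _ := AdjoinRoot (polA k g)

/-- `b ^ (2 g) = c₂ (1 - T)` with `c₂ = (2 g + 1) ^ (- (2 g + 1))`. -/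
noncomputable def polB : (RA k g)[X] :=
  X ^ (2 * g) - C (algebraMap k[X] (RA k g) (C (((2 * g + 1 : k) ^ (2 * g + 1))⁻¹) * (1 - X)))

/-- `k[T][a, b]` -/
abbrev RB : Type _ := AdjoinRoot (polB k g)

theorem polA_monic : (polA k g).Monic := monic_X_pow_sub_C _ (by omega)

theorem polA_natDegree : (polA k g).natDegree = 2 * g + 1 := natDegree_X_pow_sub_C

/-- the coordinate `a` -/
noncomputable def cA : RB k g := AdjoinRoot.of (polB k g) (AdjoinRoot.root (polA k g))

/-- the coordinate `b` -/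
noncomputable def cB : RB k g := AdjoinRoot.root (polB k g)

theorem cA_pow : cA k g ^ (2 * g + 1) =
    algebraMap k[X] (RB k g) (C (((2 * g : k) ^ (2 * g))⁻¹) * X) := by
  have h1 := AdjoinRoot.eval₂_root (polA k g)
  rw [polA, eval₂_sub, eval₂_pow, eval₂_X, eval₂_C, sub_eq_zero] at h1
  rw [cA, ← map_pow]
  have h2 := congrArg (AdjoinRoot.of (polB k g)) h1
  exact h2

theorem cB_pow : cB k g ^ (2 * g) =
    algebraMap k[X] (RB k g) (C (((2 * g + 1 : k) ^ (2 * g + 1))⁻¹) * (1 - X)) := by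
  have h1 := AdjoinRoot.eval₂_root (polB k g)
  rw [polB, eval₂_sub, eval₂_pow, eval₂_X, eval₂_C, sub_eq_zero] at h1
  exact h1

variable {g}

theorem RA_nontrivial : Nontrivial (RA k g) := by
  refine AdjoinRoot.nontrivial _ ?_
  rw [degree_eq_natDegree (polA_monic k g).ne_zero, polA_natDegree]
  exact_mod_cast (by omega : 2 * g + 1 ≠ 0)

theorem polB_monic (hg : 1 ≤ g) : (polB k g).Monic := monic_X_pow_sub_C _ (by omega)

theorem finite_RB (hg : 1 ≤ g) : Module.Finite k[X] (RB k g) := by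
  haveI := (polA_monic k g).finite_adjoinRoot
  haveI := (polB_monic k hg).finite_adjoinRoot
  exact Module.Finite.trans (RA k g) (RB k g)

theorem injective_RB (hg : 1 ≤ g) : Function.Injective (algebraMap k[X] (RB k g)) := by
  haveI := RA_nontrivial k (g := g)
  haveI := (polA_monic k g).free_adjoinRoot
  haveI := (polB_monic k hg).free_adjoinRoot
  have hn : Nontrivial (RB k g) := by
    have hdeg : (polB k g).natDegree = 2 * g := natDegree_X_pow_sub_C
    refine nontrivial_of_ne (AdjoinRoot.mk (polB k g) 1) 0 ?_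
    refine AdjoinRoot.mk_ne_zero_of_natDegree_lt (polB_monic k hg) one_ne_zero ?_
    rw [natDegree_one]
    omega
  rw [IsScalarTower.algebraMap_eq k[X] (RA k g) (RB k g)]
  exact (FaithfulSMul.algebraMap_injective (RA k g) (RB k g)).comp
    (FaithfulSMul.algebraMap_injective k[X] (RA k g))

end ring

section family

variable (k : Type*) [Field k] [IsAlgClosed k] [CharZero k] (g : ℕ)

/-- The family of polynomials `xⁿ + a x + b`. -/
noncomputable def fam : (RB k g)[X] := X ^ (2 * g + 1) + C (cA k g) * X + C (cB k g)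

variable {g}

theorem fam_map (s : RB k g →ₐ[k] k) : (fam k g).map (s : RB k g →+* k) =
    X ^ (2 * g + 1) + C (s (cA k g)) * X + C (s (cB k g)) := by
  simp [fam]

theorem alg_CX (R : Type*) [CommRing R] [Algebra k R] [Algebra k[X] R] [IsScalarTower k k[X] R]
    (c : k) : algebraMap k[X] R (C c) = algebraMap k R c :=
  (IsScalarTower.algebraMap_apply k k[X] R c).symm

theorem relation (hg : 1 ≤ g) : (2 * g : RB k g) ^ (2 * g) * cA k g ^ (2 * g + 1) +
    (2 * g + 1 : RB k g) ^ (2 * g + 1) * cB k g ^ (2 * g) = 1 := by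
  have h1 : ((2 * g : k) ^ (2 * g)) ≠ 0 := by
    apply pow_ne_zero
    exact_mod_cast (by omega : 2 * g ≠ 0)
  have h2 : ((2 * g + 1 : k) ^ (2 * g + 1)) ≠ 0 := by
    apply pow_ne_zero
    exact_mod_cast (by omega : 2 * g + 1 ≠ 0)
  have e1 : (2 * g : RB k g) ^ (2 * g) = algebraMap k[X] (RB k g) (C ((2 * g : k) ^ (2 * g))) := by
    simp only [map_pow, map_mul, map_ofNat, map_natCast]
  have e2 : (2 * g + 1 : RB k g) ^ (2 * g + 1) =
      algebraMap k[X] (RB k g) (C ((2 * g + 1 : k) ^ (2 * g + 1))) := by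
    simp only [map_pow, map_mul, map_add, map_one, map_ofNat, map_natCast]
  rw [cA_pow, cB_pow, e1, e2, ← map_mul, ← map_mul, ← map_add, ← mul_assoc, ← mul_assoc, ← C_mul,
    ← C_mul, mul_inv_cancel₀ h1, mul_inv_cancel₀ h2]
  simp

theorem fam_coprime (hg : 1 ≤ g) : IsCoprime (fam k g) (derivative (fam k g)) :=
  family_coprime g _ _ (relation k hg)

theorem RB_nontrivial (hg : 1 ≤ g) : Nontrivial (RB k g) :=
  (injective_RB k hg).nontrivial

theorem fam_lt (hg : 1 ≤ g) : (C (cA k g) * X + C (cB k g)).natDegree < 2 * g + 1 :=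
  natDegree_linear_le.trans_lt (by omega)

theorem fam_monic (hg : 1 ≤ g) : (fam k g).Monic := by
  rw [fam, add_assoc]
  refine monic_X_pow_add (degree_linear_le.trans_lt ?_)
  exact_mod_cast (by omega : 1 < 2 * g + 1)

theorem fam_natDegree' (hg : 1 ≤ g) : (fam k g).natDegree = 2 * g + 1 := by
  haveI := RB_nontrivial k hg
  rw [fam, add_assoc, natDegree_add_eq_left_of_natDegree_lt, natDegree_X_pow]
  rw [natDegree_X_pow]
  exact fam_lt k hg

theorem fam_squarefree (hg : 1 ≤ g) (s : RB k g →ₐ[k] k) :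
    Squarefree ((fam k g).map (s : RB k g →+* k)) := by
  refine Polynomial.Separable.squarefree ?_
  have h1 := (fam_coprime k hg).map (Polynomial.mapRingHom (s : RB k g →+* k))
  simp only [coe_mapRingHom] at h1
  rw [← Polynomial.derivative_map] at h1
  exact h1

theorem point_pow (s : RB k g →ₐ[k] k) : s (cA k g) ^ (2 * g + 1) =
      ((2 * g : k) ^ (2 * g))⁻¹ * s (algebraMap k[X] (RB k g) X) ∧
    s (cB k g) ^ (2 * g) = ((2 * g + 1 : k) ^ (2 * g + 1))⁻¹ *
      (1 - s (algebraMap k[X] (RB k g) X)) := by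
  constructor
  · rw [← map_pow, cA_pow, map_mul, map_mul, alg_CX, AlgHom.commutes]
    rfl
  · rw [← map_pow, cB_pow, map_mul, map_mul, alg_CX, AlgHom.commutes, map_sub, map_sub, map_one,
      map_one]
    rfl

theorem point_ne (hg : 1 ≤ g) (s : RB k g →ₐ[k] k) : s (cA k g) ≠ 0 ∨ s (cB k g) ≠ 0 := by
  by_contra h
  push Not at h
  have h1 := congrArg s (relation k hg)
  rw [map_add, map_mul, map_mul, map_pow _ (cA k g), map_pow _ (cB k g), h.1, h.2,
    zero_pow (by omega), zero_pow (by omega), map_one] at h1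
  simp at h1

theorem exists_point (t a b : k) (ha : a ^ (2 * g + 1) = ((2 * g : k) ^ (2 * g))⁻¹ * t)
    (hb : b ^ (2 * g) = ((2 * g + 1 : k) ^ (2 * g + 1))⁻¹ * (1 - t)) :
    ∃ s : RB k g →ₐ[k] k, s (cA k g) = a ∧ s (cB k g) = b := by
  have h1 : (polA k g).eval₂ (aeval t : k[X] →ₐ[k] k) a = 0 := by
    rw [polA, eval₂_sub, eval₂_pow, eval₂_X, eval₂_C, ha]
    simp
  let s1 : RA k g →ₐ[k] k := AdjoinRoot.liftAlgHom (polA k g) (aeval t) a h1
  have hs1 : ∀ p : k[X], s1 (algebraMap k[X] (RA k g) p) = aeval t p := fun p =>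
    AdjoinRoot.liftAlgHom_of (p := polA k g) (aeval t) a h1 p
  have h2 : (polB k g).eval₂ s1 b = 0 := by
    rw [polB, eval₂_sub, eval₂_pow, eval₂_X, eval₂_C, hb]
    change _ - s1 _ = 0
    rw [hs1]
    simp
  refine ⟨AdjoinRoot.liftAlgHom (polB k g) s1 b h2, ?_, ?_⟩
  · rw [cA, AdjoinRoot.liftAlgHom_of]
    exact AdjoinRoot.liftAlgHom_root (p := polA k g) (aeval t) a h1
  · rw [cB, AdjoinRoot.liftAlgHom_root]

theorem main (hg : 2 ≤ g) : Module.Finite k[X] (RB k g) ∧
    Function.Injective (algebraMap k[X] (RB k g)) ∧ (fam k g).Monic ∧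
    (fam k g).natDegree = 2 * g + 1 ∧ IsCoprime (fam k g) (derivative (fam k g)) ∧
    (∀ s : RB k g →ₐ[k] k, ∃ hirr : Irreducible (hypPoly ((fam k g).map (s : RB k g →+* k))),
      hypGenus ((fam k g).map (s : RB k g →+* k)) hirr = g) ∧
    (∀ s s' : RB k g →ₐ[k] k,
      s (algebraMap k[X] (RB k g) X) = s' (algebraMap k[X] (RB k g) X) →
        Nonempty (FF ((fam k g).map (s : RB k g →+* k)) ≃ₐ[k]
          FF ((fam k g).map (s' : RB k g →+* k)))) ∧
    ∃ s s' : RB k g →ₐ[k] k, IsEmpty (FF ((fam k g).map (s : RB k g →+* k)) ≃ₐ[k]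
          FF ((fam k g).map (s' : RB k g →+* k))) := by
  have hg1 : 1 ≤ g := by omega
  refine ⟨finite_RB k hg1, injective_RB k hg1, fam_monic k hg1, fam_natDegree' k hg1,
    fam_coprime k hg1, ?_, ?_, ?_⟩
  · intro s
    have hd : ((fam k g).map (s : RB k g →+* k)).natDegree = 2 * g + 1 := by
      rw [(fam_monic k hg1).natDegree_map, fam_natDegree' k hg1]
    exact ⟨hypPoly_irreducible hd, hypGenus_eq hd (fam_squarefree k hg1 s) _⟩
  · intro s s' hs
    rw [fam_map, fam_map]
    have h1 := point_pow k s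
    have h2 := point_pow k s'
    rw [← hs] at h2
    exact iso_scale hg1 _ _ _ _ (h1.1.trans h2.1.symm) (h1.2.trans h2.2.symm) (point_ne k hg1 s)
  · have n1 : ((2 * g : k) ^ (2 * g))⁻¹ ≠ 0 := by
      apply inv_ne_zero
      apply pow_ne_zero
      exact_mod_cast (by omega : 2 * g ≠ 0)
    have n2 : ((2 * g + 1 : k) ^ (2 * g + 1))⁻¹ ≠ 0 := by
      apply inv_ne_zero
      apply pow_ne_zero
      exact_mod_cast (by omega : 2 * g + 1 ≠ 0)
    obtain ⟨b, hb⟩ := IsAlgClosed.exists_pow_nat_eq (((2 * g + 1 : k) ^ (2 * g + 1))⁻¹)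
      (n := 2 * g) (by omega)
    obtain ⟨a, ha⟩ := IsAlgClosed.exists_pow_nat_eq (((2 * g : k) ^ (2 * g))⁻¹)
      (n := 2 * g + 1) (by omega)
    obtain ⟨s, hs1, hs2⟩ := exists_point k (g := g) 0 0 b (by
      rw [zero_pow (by omega), mul_zero]) (by rw [hb, sub_zero, mul_one])
    obtain ⟨s', hs1', hs2'⟩ := exists_point k (g := g) 1 a 0 (by
      rw [ha, mul_one]) (by rw [zero_pow (by omega), sub_self, mul_zero])
    have hb0 : b ≠ 0 := by
      rintro rfl
      rw [zero_pow (by omega)] at hb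
      exact n2 hb.symm
    refine ⟨s, s', ?_⟩
    have q1 := fam_squarefree k hg1 s
    have q2 := fam_squarefree k hg1 s'
    rw [fam_map, hs1, hs2, map_zero, zero_mul, add_zero] at q1
    rw [fam_map, hs1', hs2', map_zero, add_zero] at q2
    rw [fam_map, fam_map, hs1, hs2, hs1', hs2', map_zero, zero_mul, add_zero, add_zero]
    exact not_iso hg a b hb0 q2 q1

end family

end H248
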